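import Pool.Agent.H18.Dl

set_option autoImplicit false

namespace Pool.Agent.Results.MP_91e6fa_gt.CH

open Set Filter Topology TopologicalSpace Pool.Agent.H18

/-- open `ω`-cover -/
def Om {X : Type} [TopologicalSpace X] (𝒰 : Set (Set X)) : Prop :=
  (∀ U ∈ 𝒰, IsOpen U) ∧ ⋃₀ 𝒰 = univ ∧ univ ∉ 𝒰 ∧ ∀ F : Set X, F.Finite → ∃ U ∈ 𝒰, F ⊆ U

/-- `p`-limit of a sequence of sets -/
def plim {X : Type} (p : Ultrafilter ℕ) (A : ℕ → Set X) : Set X := {x | {n | x ∈ A n} ∈ p}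

/-- the smallest family containing `ℱ` and closed under `p`-limits of sequences of members -/
def Lp {X : Type} (p : Ultrafilter ℕ) (ℱ : Set (Set X)) : Set (Set X) :=
  ⋂₀ {𝒢 | ℱ ⊆ 𝒢 ∧ ∀ A : ℕ → Set X, (∀ n, A n ∈ 𝒢) → plim p A ∈ 𝒢}

/-- property `δ_p` -/
def Delta (X : Type) [TopologicalSpace X] (p : Ultrafilter ℕ) : Prop :=
  ∀ 𝒰 : Set (Set X), Om 𝒰 → univ ∈ Lp p 𝒰

/-- `γ_p`-cover -/
def GammaCover {X : Type} [TopologicalSpace X] (p : Ultrafilter ℕ) (𝒱 : Set (Set X)) : Prop :=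
  (∀ U ∈ 𝒱, IsOpen U) ∧ ⋃₀ 𝒱 = univ ∧ ∃ u : ℕ → Set X, range u = 𝒱 ∧ ∀ x, {n | x ∈ u n} ∈ p

/-- property `γ_p` -/
def Gamma (X : Type) [TopologicalSpace X] (p : Ultrafilter ℕ) : Prop :=
  ∀ 𝒰 : Set (Set X), Om 𝒰 → ∃ 𝒱 ⊆ 𝒰, GammaCover p 𝒱

def Nonprincipal (p : Ultrafilter ℕ) : Prop := ∀ n, {n} ∉ p

lemma om_count {Z : Type} [TopologicalSpace Z] [SecondCountableTopology Z] {𝒰 : Set (Set Z)}
    (h : Om 𝒰) : ∃ u : ℕ → Set Z, (∀ n, u n ∈ 𝒰) ∧ ∀ F : Set Z, F.Finite → ∃ n, F ⊆ u n := by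
  let S : Set (Set (Set Z)) := {s | (s.Finite ∧ s ⊆ countableBasis Z) ∧ ∃ u ∈ 𝒰, ⋃₀ s ⊆ u}
  have hS : S.Countable :=
    (countable_setOf_finite_subset (countable_countableBasis Z)).mono fun s hs => hs.1
  obtain ⟨e, he⟩ := hS.exists_eq_range ⟨∅, by simp, by
    obtain ⟨u, a, -⟩ := h.2.2.2 ∅ finite_empty
    exact ⟨u, a, by simp⟩⟩
  have : ∀ n, ∃ u ∈ 𝒰, ⋃₀ e n ⊆ u := fun n => (show e n ∈ S from he ▸ mem_range_self n).2
  choose u u1 u2 using this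
  refine ⟨u, u1, fun F hF => ?_⟩
  obtain ⟨v, v1, v2⟩ := h.2.2.2 F hF
  have : ∀ x : F, ∃ b ∈ countableBasis Z, x.1 ∈ b ∧ b ⊆ v := fun x =>
    (isBasis_countableBasis Z).exists_subset_of_mem_open (v2 x.2) (h.1 v v1)
  choose b b1 b2 b3 using this
  haveI := hF.to_subtype
  obtain ⟨n, hn⟩ : range b ∈ range e := he ▸ ⟨⟨finite_range b, by rintro _ ⟨x, rfl⟩; exact b1 x⟩,
    v, v1, by rintro z ⟨_, ⟨x, rfl⟩, t⟩; exact b3 x t⟩
  exact ⟨n, fun x hx => u2 n ⟨b ⟨x, hx⟩, hn ▸ mem_range_self _, b2 _⟩⟩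

/-- Under CH some subspace of the Cantor space has `δ_p` for every nonprincipal ultrafilter `p`
and fails `γ_q` for some nonprincipal ultrafilter `q`. -/
theorem result (hCH : Cardinal.continuum.{0} = Cardinal.aleph 1) :
    ∃ X : Set (ℕ → Bool), (∀ p, Nonprincipal p → Delta X p) ∧
      ∃ q, Nonprincipal q ∧ ¬ Gamma X q := by
  obtain ⟨X, q, q1, x1, x2, x3, x4⟩ := Dl.main hCH
  refine ⟨X, fun p hp 𝒰 hU => ?_, q, q1, fun h => ?_⟩
  · have cp : ∀ S : Set ℕ, S ∈ atTop → S ∈ p := fun S hS => by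
      rcases p.le_cofinite_or_eq_pure with t | ⟨n, t⟩
      · exact t (Nat.cofinite_eq_atTop ▸ hS)
      · exact absurd (by rw [t]; exact rfl) (hp n)
    obtain ⟨u, u1, u2⟩ := om_count hU
    choose O o1 o2 using fun n => isOpen_induced_iff.mp (hU.1 _ (u1 n))
    obtain ⟨m, hm⟩ := x4 O o1 fun F f1 f2 => by
      obtain ⟨n, hn⟩ := u2 (Subtype.val ⁻¹' F) (f1.preimage Subtype.val_injective.injOn)
      rw [← o2 n] at hn
      exact ⟨n, fun x hx => hn (a := ⟨x, f2 hx⟩) hx⟩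
    rintro 𝒢 ⟨g1, g2⟩
    have : plim p (fun a => plim p fun b => u (m (Nat.pair a b))) = univ :=
      eq_univ_of_forall fun x => cp _ ((hm x x.2).mono fun a ha => cp _ (ha.mono fun b hb => by
        show x ∈ u _
        rw [← o2]; exact hb))
    rw [← this]
    exact g2 _ fun a => g2 _ fun b => g1 (u1 _)
  · have om : ∀ F : Set X, F.Finite → ∃ k, ∀ x ∈ F, x.1 k = false := fun F hF => by
      obtain ⟨a, ha⟩ := ((eventually_all_finite hF).mpr fun x _ => x2 x.1 x.2).exists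
      obtain ⟨b, hb⟩ := ((eventually_all_finite hF).mpr ha).exists
      exact ⟨_, fun x hx => by simpa using hb x hx⟩
    obtain ⟨𝒱, v1, -, -, u, rfl, v2⟩ := h (range fun k => {x : X | x.1 k = false}) ⟨by
        rintro _ ⟨k, rfl⟩
        exact (isOpen_discrete {false}).preimage (f := fun x : X => x.1 k)
          ((continuous_apply k).comp continuous_subtype_val),
      eq_univ_of_forall fun x => by
        obtain ⟨k, hk⟩ := om {x} (finite_singleton x)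
        exact ⟨_, mem_range_self k, hk x rfl⟩, by
        rintro ⟨k, hk⟩
        have : (⟨Dl.ind {k}, x1 ((eventually_gt_atTop k).mono fun i hi => by
          simp [Dl.ind, hi.ne'])⟩ : X) ∈ {x : X | x.1 k = false} :=
          (eq_univ_iff_forall.mp hk) _
        simp [Dl.ind] at this,
      fun F hF => by
        obtain ⟨k, hk⟩ := om F hF
        exact ⟨_, mem_range_self k, hk⟩⟩
    choose f hf using fun n => v1 (mem_range_self (f := u) n)
    obtain ⟨x, y1, y2⟩ := x3 f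
    obtain ⟨n, n1, n2⟩ := q.nonempty_of_mem (inter_mem y2 (v2 ⟨x, y1⟩))
    have : x (f n) = false := show (⟨x, y1⟩ : X) ∈ {x : X | x.1 (f n) = false} from by
      rw [show {x : X | x.1 (f n) = false} = u n from hf n]; exact n2
    simp_all

end Pool.Agent.Results.MP_91e6fa_gt.CH
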